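import Pool.Agent.R3B.StmtsB

/-! Squad R3B, row WKB: the weak equation. -/

set_option autoImplicit false

namespace Pool.Agent.R3B.H45

open Set Filter Topology MeasureTheory InnerProductSpace Laplacian
open scoped InnerProductSpace ENNReal
open Pool.Agent.BE01F Pool.Agent.R3B

noncomputable section

theorem bl_eq (ℓ : ℝ) : Bl ℓ = Metric.ball (0 : E 3) ℓ := by
  ext x
  simp [Bl]

theorem bl_meas (ℓ : ℝ) : MeasurableSet (Bl ℓ) := by
  rw [bl_eq]
  exact Metric.isOpen_ball.measurableSet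

theorem int_inv (ℓ : ℝ) : Integrable (fun x : E 3 => ‖x‖⁻¹) (vol (Bl ℓ)) := by
  show IntegrableOn (fun x : E 3 => ‖x‖⁻¹) (Bl ℓ) volume
  rw [bl_eq]
  refine (integrableOn_fun_norm_addHaar (volume : Measure (E 3)) (f := fun r : ℝ => r⁻¹)
    (r := ℓ)).2 ?_
  have h : IntegrableOn (fun y : ℝ => y) (Ioo 0 ℓ) volume :=
    (continuous_id.integrableOn_Icc).mono_set Ioo_subset_Icc_self
  refine h.congr_fun (fun y hy => ?_) measurableSet_Ioo
  have hy' : y ≠ 0 := ne_of_gt hy.1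
  have hd : Module.finrank ℝ (E 3) - 1 = 2 := by
    rw [finrank_euclideanSpace_fin]
  show y = y ^ (Module.finrank ℝ (E 3) - 1) • y⁻¹
  rw [hd, smul_eq_mul]
  field_simp

theorem radial_aesm {ℓ : ℝ} {f : ℝ → ℝ} (hf : ContinuousOn f (Icc 0 ℓ)) :
    AEStronglyMeasurable (fun x : E 3 => f ‖x‖) (vol (Bl ℓ)) := by
  refine ContinuousOn.aestronglyMeasurable ?_ (bl_meas ℓ)
  exact hf.comp continuous_norm.continuousOn fun x hx => ⟨norm_nonneg x, le_of_lt hx⟩

theorem inv_aesm (ℓ : ℝ) : AEStronglyMeasurable (fun x : E 3 => ‖x‖⁻¹) (vol (Bl ℓ)) :=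
  (int_inv ℓ).aestronglyMeasurable

theorem int_of_bound {ℓ K : ℝ} {φ : E 3 → ℝ} (hm : AEStronglyMeasurable φ (vol (Bl ℓ)))
    (hb : ∀ x ∈ Bl ℓ, |φ x| ≤ K * ‖x‖⁻¹) : Integrable φ (vol (Bl ℓ)) := by
  refine ((int_inv ℓ).const_mul K).mono' hm ?_
  refine (ae_restrict_iff' (bl_meas ℓ)).2 (Eventually.of_forall fun x hx => ?_)
  rw [Real.norm_eq_abs]
  exact hb x hx

theorem grad_cont {ψ : E 3 → ℝ} (h : ContDiff ℝ ((⊤ : ℕ∞) : WithTop ℕ∞) ψ) :
    Continuous (gradient ψ) := by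
  have h1 : Continuous (fderiv ℝ ψ) := h.continuous_fderiv (by simp)
  exact (toDual ℝ (E 3)).symm.continuous.comp h1

theorem bdd_on {ℓ : ℝ} {M : Type} [SeminormedAddCommGroup M] {F : E 3 → M}
    (h : Continuous F) : ∃ K : ℝ, 0 ≤ K ∧ ∀ x ∈ Bl ℓ, ‖F x‖ ≤ K := by
  obtain ⟨K, hK⟩ := (isCompact_closedBall (0 : E 3) ℓ).exists_bound_of_continuousOn
    h.continuousOn
  refine ⟨max K 0, le_max_right _ _, fun x hx => (hK x ?_).trans (le_max_left _ _)⟩
  rw [bl_eq] at hx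
  exact Metric.ball_subset_closedBall hx

theorem wkb (h1 : LpbStmt) : WkbStmt := by
  intro a α ℓ w V Z A B C ha hα hℓ hP t ht ψ hψ
  have hsl : ∀ G : ℝ → ℝ → ℝ, ContinuousOn (fun z : ℝ × ℝ => G z.1 z.2) (Ici 0 ×ˢ Icc 0 ℓ) →
      ContinuousOn (G t) (Icc 0 ℓ) := by
    intro G hG
    exact hG.comp (f := fun r : ℝ => (t, r)) (by fun_prop) fun r hr => ⟨ht, hr⟩
  have cC := hsl C hP.cC
  have cZ := hsl Z hP.cZ
  have cw : ContinuousOn (w t) (Icc 0 ℓ) := by
    have hint : IntegrableOn (Z t) (uIcc 0 ℓ) volume := by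
      rw [uIcc_of_le hℓ.le]
      exact cZ.integrableOn_Icc
    have h := intervalIntegral.continuousOn_primitive_interval hint
    rw [uIcc_of_le hℓ.le] at h
    exact h.congr fun r hr => hP.wr t r ht hr.1 hr.2
  obtain ⟨KC, hKC⟩ := isCompact_Icc.exists_bound_of_continuousOn cC
  obtain ⟨KZ, hKZ⟩ := isCompact_Icc.exists_bound_of_continuousOn cZ
  have hKZ0 : 0 ≤ KZ := (norm_nonneg _).trans (hKZ 0 ⟨le_rfl, hℓ.le⟩)
  have hKC0 : 0 ≤ KC := (norm_nonneg _).trans (hKC 0 ⟨le_rfl, hℓ.le⟩)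
  obtain ⟨M, hM0, hM⟩ := bdd_on (ℓ := ℓ) hψ.1.continuous
  obtain ⟨M', hM0', hM'⟩ := bdd_on (ℓ := ℓ) (grad_cont hψ.1)
  -- integrability
  have i1 : Integrable (fun x => rf (C t) x * ψ x) (vol (Bl ℓ)) := by
    refine int_of_bound (K := KC * M) ?_ fun x hx => ?_
    · refine AEStronglyMeasurable.mul ?_ hψ.1.continuous.aestronglyMeasurable
      show AEStronglyMeasurable (fun x : E 3 => C t ‖x‖ / ‖x‖) _
      simp only [div_eq_mul_inv]
      exact (radial_aesm cC).mul (inv_aesm ℓ)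
    · have b1 := hKC ‖x‖ ⟨norm_nonneg x, le_of_lt hx⟩
      have b2 := hM x hx
      rw [Real.norm_eq_abs] at b1 b2
      unfold rf
      rw [abs_mul, abs_div, abs_of_nonneg (norm_nonneg x), div_eq_mul_inv]
      have hi : 0 ≤ ‖x‖⁻¹ := inv_nonneg.2 (norm_nonneg x)
      calc |C t ‖x‖| * ‖x‖⁻¹ * |ψ x| ≤ KC * ‖x‖⁻¹ * M := by
            apply mul_le_mul (mul_le_mul_of_nonneg_right b1 hi) b2 (abs_nonneg _)
            exact mul_nonneg hKC0 hi
        _ = KC * M * ‖x‖⁻¹ := by ring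
  have i2 : Integrable (fun x => ⟪rg (w t) (Z t) x, gradient ψ x⟫_ℝ) (vol (Bl ℓ)) := by
    refine int_of_bound (K := 2 * KZ * M') ?_ fun x hx => ?_
    · have hg : AEStronglyMeasurable (gradient ψ) (vol (Bl ℓ)) :=
        (grad_cont hψ.1).aestronglyMeasurable
      have hs : AEStronglyMeasurable
          (fun x : E 3 => (Z t ‖x‖ - w t ‖x‖ / ‖x‖) / ‖x‖ ^ 2) (vol (Bl ℓ)) := by
        simp only [div_eq_mul_inv]
        refine AEStronglyMeasurable.mul ?_ ?_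
        · exact (radial_aesm cZ).sub ((radial_aesm cw).mul (inv_aesm ℓ))
        · exact (measurable_norm.pow_const 2).inv.aestronglyMeasurable
      have hF : AEStronglyMeasurable (rg (w t) (Z t)) (vol (Bl ℓ)) :=
        hs.smul aestronglyMeasurable_id
      exact hF.inner hg
    · have b2 := hM' x hx
      refine (abs_real_inner_le_norm _ _).trans ?_
      have hr : ‖rg (w t) (Z t) x‖ ≤ 2 * KZ * ‖x‖⁻¹ := by
        unfold rg
        rw [norm_smul, Real.norm_eq_abs, abs_div, abs_of_nonneg (sq_nonneg ‖x‖)]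
        rcases (norm_nonneg x).lt_or_eq with h0 | h0
        · have b1 := hKZ ‖x‖ ⟨norm_nonneg x, le_of_lt hx⟩
          rw [Real.norm_eq_abs] at b1
          have b3 : |w t ‖x‖| ≤ KZ * ‖x‖ := by
            rw [hP.wr t ‖x‖ ht (norm_nonneg x) (le_of_lt hx), ← Real.norm_eq_abs]
            have h := intervalIntegral.norm_integral_le_of_norm_le_const (a := (0 : ℝ))
              (b := ‖x‖) (f := Z t) (C := KZ) (fun ρ hρ => by
                rw [uIoc_of_le (norm_nonneg x)] at hρ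
                exact hKZ ρ ⟨hρ.1.le, hρ.2.trans (le_of_lt hx)⟩)
            rwa [sub_zero, abs_of_nonneg (norm_nonneg x)] at h
          have b4 : |Z t ‖x‖ - w t ‖x‖ / ‖x‖| ≤ 2 * KZ := by
            refine (abs_sub _ _).trans ?_
            rw [abs_div, abs_of_nonneg (norm_nonneg x)]
            have : |w t ‖x‖| / ‖x‖ ≤ KZ := by
              rw [div_le_iff₀ h0]
              exact b3
            linarith
          calc |Z t ‖x‖ - w t ‖x‖ / ‖x‖| / ‖x‖ ^ 2 * ‖x‖ =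
                |Z t ‖x‖ - w t ‖x‖ / ‖x‖| * ‖x‖⁻¹ := by field_simp
            _ ≤ 2 * KZ * ‖x‖⁻¹ := mul_le_mul_of_nonneg_right b4 (inv_nonneg.2 (norm_nonneg x))
        · rw [← h0]
          simp
      calc ‖rg (w t) (Z t) x‖ * ‖gradient ψ x‖ ≤ (2 * KZ * ‖x‖⁻¹) * M' := by
            apply mul_le_mul hr b2 (norm_nonneg _)
            exact mul_nonneg (by linarith) (inv_nonneg.2 (norm_nonneg x))
        _ = 2 * KZ * M' * ‖x‖⁻¹ := by ring
  -- the equation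
  have hpt : ∀ x ∈ Bl ℓ, rf (A t) x * ψ x + ⟪rg (w t) (Z t) x, gradient ψ x⟫_ℝ +
      a * |rf (V t) x| ^ α * rf (V t) x * ψ x =
      rf (C t) x * ψ x + ⟪rg (w t) (Z t) x, gradient ψ x⟫_ℝ := by
    intro x hx
    have key : rf (A t) x + a * |rf (V t) x| ^ α * rf (V t) x = rf (C t) x := by
      rcases (norm_nonneg x).lt_or_eq with h0 | h0
      · have he := hP.eq t ‖x‖ ht h0 (le_of_lt hx)
        unfold rf
        rw [abs_div, abs_of_nonneg (norm_nonneg x),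
          Real.div_rpow (abs_nonneg _) (norm_nonneg x)]
        rw [Real.rpow_neg (norm_nonneg x)] at he
        have hC : C t ‖x‖ = A t ‖x‖ + a * (‖x‖ ^ α)⁻¹ * (|V t ‖x‖| ^ α * V t ‖x‖) := by
          linarith
        rw [hC]
        have hr : (0 : ℝ) < ‖x‖ ^ α := Real.rpow_pos_of_pos h0 α
        field_simp
      · unfold rf
        rw [← h0]
        simp
    rw [← key]
    ring
  have hlp := h1 ℓ (w t) (Z t) (C t) hℓ cC (fun r hr0 hr1 => hP.wr t r ht hr0 hr1)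
    (fun r hr0 hr1 => hP.Zr t r ht hr0 hr1) ψ hψ
  have e1 : intg (Bl ℓ) (fun x => rf (A t) x * ψ x + ⟪rg (w t) (Z t) x, gradient ψ x⟫_ℝ +
      a * |rf (V t) x| ^ α * rf (V t) x * ψ x) =
      intg (Bl ℓ) (fun x => rf (C t) x * ψ x + ⟪rg (w t) (Z t) x, gradient ψ x⟫_ℝ) := by
    unfold intg vol
    exact setIntegral_congr_fun (bl_meas ℓ) hpt
  rw [e1]
  have e2 : intg (Bl ℓ) (fun x => rf (C t) x * ψ x + ⟪rg (w t) (Z t) x, gradient ψ x⟫_ℝ) =
      intg (Bl ℓ) (fun x => rf (C t) x * ψ x) +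
        intg (Bl ℓ) (fun x => ⟪rg (w t) (Z t) x, gradient ψ x⟫_ℝ) := integral_add i1 i2
  rw [e2, hlp]
  ring

end

end Pool.Agent.R3B.H45
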